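import Pool.Agent.H49.LAN.Stmts

/-!
# LAN, module AMG: the arithmetic-geometric mean inequality for conjugates
-/

set_option autoImplicit false

open scoped BigOperators
open Finset

namespace LAN

theorem amg : AMGStmt := by
  intro L _ _ c hc hc0
  have hprod : ∏ φ : L →+* ℂ, ‖φ c‖ = |(Algebra.norm ℚ c : ℝ)| := by
    have h := (congr_arg (‖·‖) (Algebra.norm_eq_prod_embeddings ℚ ℂ c)).symm
    have h2 : ‖∏ σ : L →ₐ[ℚ] ℂ, σ c‖ = ∏ φ : L →+* ℂ, ‖φ c‖ := by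
      rw [norm_prod, ← Fintype.prod_equiv (RingHom.equivRatAlgHom L ℂ) (fun f => ‖f c‖)
        (fun φ => ‖φ c‖) fun _ => by simp [RingHom.equivRatAlgHom_apply]]
    rw [← h2]
    simpa using h
  have hnorm : (1 : ℝ) ≤ |(Algebra.norm ℚ c : ℝ)| := by
    have h1 : IsIntegral ℤ (Algebra.norm ℚ c) := Algebra.isIntegral_norm ℚ hc
    obtain ⟨n, hn⟩ := (IsIntegrallyClosed.isIntegral_iff (R := ℤ) (K := ℚ)).1 h1
    have h2 : Algebra.norm ℚ c ≠ 0 := (Algebra.norm_ne_zero_iff).2 hc0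
    have h3 : n ≠ 0 := by
      rintro rfl
      apply h2
      rw [← hn]; simp
    have h4 : (1 : ℤ) ≤ |n| := Int.one_le_abs h3
    rw [← hn]
    have h5 : ((1 : ℤ) : ℝ) ≤ ((|n| : ℤ) : ℝ) := by exact_mod_cast h4
    simpa using h5
  have hpos : ∀ φ : L →+* ℂ, 0 < ‖φ c‖ := fun φ => by
    rw [norm_pos_iff]
    exact (map_ne_zero φ).2 hc0
  have hlog : 0 ≤ ∑ φ : L →+* ℂ, Real.log (‖φ c‖ ^ 2) := by
    have h1 : ∑ φ : L →+* ℂ, Real.log (‖φ c‖ ^ 2) = 2 * Real.log (∏ φ : L →+* ℂ, ‖φ c‖) := by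
      rw [Real.log_prod (fun φ _ => (hpos φ).ne'), Finset.mul_sum]
      refine sum_congr rfl fun φ _ => ?_
      rw [Real.log_pow]
      norm_num
    rw [h1, hprod]
    exact mul_nonneg (by norm_num) (Real.log_nonneg hnorm)
  have hle : ∀ φ : L →+* ℂ, Real.log (‖φ c‖ ^ 2) + 1 ≤ ‖φ c‖ ^ 2 := fun φ =>
    Real.add_one_le_exp (Real.log (‖φ c‖ ^ 2)) |>.trans
      (Real.exp_log (pow_pos (hpos φ) 2)).le
  have hsum : ∑ φ : L →+* ℂ, (Real.log (‖φ c‖ ^ 2) + 1) ≤ T c := sum_le_sum fun φ _ => hle φ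
  rw [sum_add_distrib] at hsum
  simp only [sum_const, card_univ, nsmul_eq_mul, mul_one] at hsum
  linarith

end LAN
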