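import Pool.Agent.H83.LAN.GAL

/-!
# LAN, module RE0: sums over cosets of the subgroup of order `p` vanish
-/

set_option autoImplicit false

open scoped BigOperators
open Finset

namespace LAN

open GAL in
theorem re0 : RE0Stmt := by
  intro p s _ L _ z hs hz c hc
  have hp : p.Prime := Fact.out
  have : NeZero (p ^ s) := ⟨pow_ne_zero _ hp.ne_zero⟩
  set y : ZMod (p ^ s) := ((p ^ (s - 1) : ℕ) : ZMod (p ^ s)) with hy
  have hpy : (p : ZMod (p ^ s)) * y = 0 := by
    rw [hy, ← Nat.cast_mul, ← pow_succ', Nat.sub_add_cancel hs, ZMod.natCast_self]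
  have hZy : Z z y ≠ 1 := by
    rw [hy, Z_nat hz.pow_eq_one]
    intro h
    have h1 := hz.dvd_of_pow_eq_one _ h
    have h2 := Nat.le_of_dvd (pow_pos hp.pos _) h1
    have h3 : p ^ (s - 1) < p ^ s := Nat.pow_lt_pow_right hp.one_lt (by omega)
    omega
  have h1 : ∑ x, c x * Z z x = Z z y * ∑ x, c x * Z z x := by
    refine (Equiv.sum_comp (Equiv.addRight y) (fun x => c x * Z z x)).symm.trans ?_
    rw [Finset.mul_sum]
    refine sum_congr rfl fun x _ => ?_
    simp only [Equiv.coe_addRight]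
    rw [hc x y hpy, Z_add hz.pow_eq_one]
    ring
  have h2 : (1 - Z z y) * ∑ x, c x * Z z x = 0 := by
    rw [sub_mul, one_mul, sub_eq_zero]
    exact h1
  rcases mul_eq_zero.1 h2 with h | h
  · exact absurd (sub_eq_zero.1 h).symm hZy
  · exact h

end LAN
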