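import Pool.Agent.H83.LAN.GAL

/-!
# LAN, module TRC: the trace form of a sum of powers of `z`
-/

set_option autoImplicit false

open scoped BigOperators ComplexConjugate
open Finset

namespace LAN

namespace TRCaux

/-- Parseval with a twist -/
lemma parseval (q : ℕ) [NeZero q] (e : AddChar (ZMod q) ℂ) (he : e.IsPrimitive)
    (C : ZMod q → ℂ) (y : ZMod q) :
    ∑ a, e (a * y) * ((∑ x, C x * e (a * x)) * conj (∑ x, C x * e (a * x))) =
      (q : ℂ) * ∑ x, C x * conj (C (x + y)) := by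
  have h1 : ∑ a, e (a * y) * ((∑ x, C x * e (a * x)) * conj (∑ x, C x * e (a * x))) =
      ∑ a, ∑ x, ∑ x', C x * conj (C x') * e (a * (y + x - x')) := by
    refine sum_congr rfl fun a _ => ?_
    rw [map_sum, Finset.sum_mul_sum, Finset.mul_sum]
    refine sum_congr rfl fun x _ => ?_
    rw [Finset.mul_sum]
    refine sum_congr rfl fun x' _ => ?_
    rw [map_mul (starRingEnd ℂ), ← AddChar.map_neg_eq_conj, show a * (y + x - x') = a * y + a * x + -(a * x') by ring,
      AddChar.map_add_eq_mul, AddChar.map_add_eq_mul]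
    ring
  rw [h1, Finset.sum_comm, Finset.mul_sum]
  refine sum_congr rfl fun x _ => ?_
  rw [Finset.sum_comm]
  have h2 : ∀ x', ∑ a, C x * conj (C x') * e (a * (y + x - x')) =
      if x' = x + y then (q : ℂ) * (C x * conj (C (x + y))) else 0 := by
    intro x'
    rw [← Finset.mul_sum, AddChar.sum_mulShift _ he]
    by_cases h : x' = x + y
    · rw [if_pos h, if_pos (by rw [h]; ring), ZMod.card, h]
      ring
    · rw [if_neg h, if_neg (fun h' => h (by rw [sub_eq_zero] at h'; rw [← h']; ring))]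
      simp
  simp_rw [h2]
  rw [Finset.sum_ite_eq' univ (x + y), if_pos (mem_univ _)]

variable (p s : ℕ)

/-- the elements killed by `p` -/
def Q [NeZero (p ^ s)] : Finset (ZMod (p ^ s)) := univ.filter (fun y => (p : ZMod (p ^ s)) * y = 0)

lemma nonunit_mul [Fact p.Prime] [NeZero (p ^ s)] (a y : ZMod (p ^ s)) (ha : ¬ IsUnit a)
    (hy : (p : ZMod (p ^ s)) * y = 0) : a * y = 0 := by
  have hp : p.Prime := Fact.out
  have h3 : p ∣ a.val := by
    by_contra h4
    apply ha
    rw [← ZMod.natCast_zmod_val a]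
    rw [ZMod.isUnit_iff_coprime]
    exact (Nat.Coprime.pow_right s ((Nat.Prime.coprime_iff_not_dvd hp).2 h4).symm)
  obtain ⟨b, hb⟩ := h3
  rw [← ZMod.natCast_zmod_val a, hb]
  push_cast
  rw [mul_comm (p : ZMod (p ^ s)) b, mul_assoc, hy, mul_zero]

lemma sum_Q [Fact p.Prime] [NeZero (p ^ s)] (hs : 1 ≤ s) (e : AddChar (ZMod (p ^ s)) ℂ)
    (he : e.IsPrimitive) (a : ZMod (p ^ s)) :
    ∑ y ∈ Q p s, e (a * y) = if IsUnit a then 0 else ((Q p s).card : ℂ) := by
  have hp : p.Prime := Fact.out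
  split_ifs with ha
  · obtain ⟨t, rfl⟩ := ha
    set y0 : ZMod (p ^ s) := ((p ^ (s - 1) : ℕ) : ZMod (p ^ s)) with hy0
    have hpy : (p : ZMod (p ^ s)) * y0 = 0 := by
      rw [hy0, ← Nat.cast_mul, ← pow_succ', Nat.sub_add_cancel hs, ZMod.natCast_self]
    have hy00 : y0 ≠ 0 := by
      intro h
      rw [hy0, ZMod.natCast_eq_zero_iff] at h
      have h2 := Nat.le_of_dvd (pow_pos hp.pos _) h
      have h3 : p ^ (s - 1) < p ^ s := Nat.pow_lt_pow_right hp.one_lt (by omega)
      omega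
    -- a nontrivial element of Q with nontrivial character value
    have hex : ∃ y ∈ Q p s, e ((t : ZMod (p ^ s)) * y) ≠ 1 := by
      by_contra hcon
      push Not at hcon
      -- then e is trivial on t * Q, in particular on all multiples of t * y0
      have h1 : ∀ b : ZMod (p ^ s), e (b * ((t : ZMod (p ^ s)) * y0)) = 1 := by
        intro b
        have : b * ((t : ZMod (p ^ s)) * y0) = (t : ZMod (p ^ s)) * (b * y0) := by ring
        rw [this]
        apply hcon
        rw [Q, mem_filter]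
        refine ⟨mem_univ _, ?_⟩
        calc (p : ZMod (p ^ s)) * (b * y0) = b * ((p : ZMod (p ^ s)) * y0) := by ring
          _ = 0 := by rw [hpy, mul_zero]
      have h2 : (t : ZMod (p ^ s)) * y0 ≠ 0 := by
        intro h
        apply hy00
        have := congrArg (fun v => ((t⁻¹ : (ZMod (p ^ s))ˣ) : ZMod (p ^ s)) * v) h
        simpa [← mul_assoc] using this
      have h3 := AddChar.sum_mulShift ((t : ZMod (p ^ s)) * y0) he
      rw [if_neg h2] at h3
      simp_rw [h1] at h3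
      rw [sum_const, card_univ, ZMod.card, nsmul_one, Nat.cast_zero] at h3
      exact absurd (by exact_mod_cast h3) (NeZero.ne (p ^ s))
    obtain ⟨y1, hy1, hne⟩ := hex
    have hshift : ∑ y ∈ Q p s, e ((t : ZMod (p ^ s)) * y) =
        e ((t : ZMod (p ^ s)) * y1) * ∑ y ∈ Q p s, e ((t : ZMod (p ^ s)) * y) := by
      rw [Finset.mul_sum]
      symm
      refine Finset.sum_bij (fun y _ => y1 + y) ?_ ?_ ?_ ?_
      · intro y hy
        rw [Q, mem_filter] at hy hy1 ⊢
        exact ⟨mem_univ _, by rw [mul_add, hy1.2, hy.2, add_zero]⟩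
      · intro y _ y' _ h
        exact add_left_cancel h
      · intro y hy
        rw [Q, mem_filter] at hy hy1
        refine ⟨y - y1, ?_, by ring⟩
        rw [Q, mem_filter]
        exact ⟨mem_univ _, by rw [mul_sub, hy1.2, hy.2, sub_zero]⟩
      · intro y _
        rw [mul_add, AddChar.map_add_eq_mul]
    have : (1 - e ((t : ZMod (p ^ s)) * y1)) * ∑ y ∈ Q p s, e ((t : ZMod (p ^ s)) * y) = 0 := by
      rw [sub_mul, one_mul, sub_eq_zero]
      exact hshift
    rcases mul_eq_zero.1 this with h | h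
    · exact absurd (sub_eq_zero.1 h).symm hne
    · exact h
  · have : ∀ y ∈ Q p s, e (a * y) = 1 := by
      intro y hy
      rw [Q, mem_filter] at hy
      rw [nonunit_mul p s a y ha hy.2, AddChar.map_zero_eq_one]
    rw [Finset.sum_congr rfl this]
    simp

lemma mem_Q [NeZero (p ^ s)] (y : ZMod (p ^ s)) :
    y ∈ Q p s ↔ (p : ZMod (p ^ s)) * y = 0 := by
  rw [Q, mem_filter]
  exact ⟨fun h => h.2, fun h => ⟨mem_univ _, h⟩⟩

lemma card_U [Fact p.Prime] [NeZero (p ^ s)] (hs : 1 ≤ s) [DecidablePred (fun a : ZMod (p ^ s) => IsUnit a)] :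
    (univ.filter (fun a : ZMod (p ^ s) => IsUnit a)).card = p ^ (s - 1) * (p - 1) := by
  have hp : p.Prime := Fact.out
  rw [← Nat.totient_prime_pow hp (by omega : 0 < s), ← ZMod.card_units_eq_totient, ← Finset.card_univ]
  symm
  refine Finset.card_bij (fun (t : (ZMod (p ^ s))ˣ) _ => (t : ZMod (p ^ s))) ?_ ?_ ?_
  · intro t _
    rw [mem_filter]
    exact ⟨mem_univ _, t.isUnit⟩
  · intro t _ t' _ h
    exact Units.ext h
  · intro a ha
    rw [mem_filter] at ha
    obtain ⟨t, ht⟩ := ha.2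
    exact ⟨t, mem_univ _, ht⟩

lemma card_Q [Fact p.Prime] [NeZero (p ^ s)] (hs : 1 ≤ s) (e : AddChar (ZMod (p ^ s)) ℂ)
    (he : e.IsPrimitive) : (Q p s).card = p := by
  classical
  have hp : p.Prime := Fact.out
  have h1 : ∑ a, ∑ y ∈ Q p s, e (a * y) = ((p ^ s : ℕ) : ℂ) := by
    rw [Finset.sum_comm]
    simp_rw [AddChar.sum_mulShift _ he]
    rw [Finset.sum_eq_single (0 : ZMod (p ^ s))]
    · rw [if_pos rfl, ZMod.card]
    · intro y _ hy
      rw [if_neg hy, Nat.cast_zero]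
    · intro h
      exact absurd ((mem_Q p s 0).2 (mul_zero _)) h
  simp_rw [sum_Q p s hs e he] at h1
  rw [← Finset.sum_filter_add_sum_filter_not univ (fun a : ZMod (p ^ s) => IsUnit a)] at h1
  rw [Finset.sum_congr rfl (g := fun _ => (0 : ℂ))
    (fun a ha => if_pos (mem_filter.1 ha).2)] at h1
  rw [Finset.sum_congr rfl (g := fun _ => ((Q p s).card : ℂ))
    (fun a ha => if_neg (mem_filter.1 ha).2)] at h1
  rw [sum_const_zero, zero_add, sum_const, nsmul_eq_mul] at h1
  have h2 : (univ.filter (fun a : ZMod (p ^ s) => ¬ IsUnit a)).card * (Q p s).card = p ^ s := by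
    exact_mod_cast h1
  have h3 := Finset.card_filter_add_card_filter_not (s := (univ : Finset (ZMod (p ^ s))))
    (fun a : ZMod (p ^ s) => IsUnit a)
  rw [card_U p s hs, card_univ, ZMod.card] at h3
  have h4 : p ^ s = p ^ (s - 1) * (p - 1) + p ^ (s - 1) := by
    calc p ^ s = p ^ (s - 1) * p := by rw [← pow_succ, Nat.sub_add_cancel hs]
      _ = p ^ (s - 1) * ((p - 1) + 1) := by rw [Nat.sub_add_cancel hp.one_le]
      _ = _ := by ring
  have h5 : (univ.filter (fun a : ZMod (p ^ s) => ¬ IsUnit a)).card = p ^ (s - 1) := by omega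
  rw [h5] at h2
  have h6 : p ^ (s - 1) * (Q p s).card = p ^ (s - 1) * p := by
    rw [h2, ← pow_succ, Nat.sub_add_cancel hs]
  exact Nat.eq_of_mul_eq_mul_left (pow_pos hp.pos _) h6

lemma main_phi [Fact p.Prime] [NeZero (p ^ s)] (hs : 1 ≤ s) (e : AddChar (ZMod (p ^ s)) ℂ)
    (he : e.IsPrimitive) (C : ZMod (p ^ s) → ℂ)
    [DecidablePred (fun a : ZMod (p ^ s) => IsUnit a)] :
    2 * ((Q p s).card : ℝ) *
        ∑ a ∈ univ.filter (fun a : ZMod (p ^ s) => IsUnit a), ‖∑ x, C x * e (a * x)‖ ^ 2 =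
      ((p ^ s : ℕ) : ℝ) * ∑ x, ∑ y ∈ Q p s, ‖C (x + y) - C x‖ ^ 2 := by
  have hn : ∀ w : ℂ, ((‖w‖ ^ 2 : ℝ) : ℂ) = w * conj w := fun w => by
    rw [Complex.mul_conj, Complex.normSq_eq_norm_sq]
  apply Complex.ofReal_injective
  push_cast
  have hn' : ∀ w : ℂ, ((‖w‖ : ℂ)) ^ 2 = w * conj w := fun w => by
    rw [← hn]; push_cast; rfl
  simp_rw [hn']
  set N : ZMod (p ^ s) → ℂ := fun a => (∑ x, C x * e (a * x)) * conj (∑ x, C x * e (a * x)) with hN
  have hpars : ∀ y, ∑ a, e (a * y) * N a = ((p ^ s : ℕ) : ℂ) * ∑ x, C x * conj (C (x + y)) :=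
    fun y => parseval (p ^ s) e he C y
  have h0 : ∑ a, N a = ((p ^ s : ℕ) : ℂ) * ∑ x, C x * conj (C x) := by
    have := hpars 0
    simpa using this
  have h1 : ∑ a, (∑ y ∈ Q p s, e (a * y)) * N a =
      ((p ^ s : ℕ) : ℂ) * ∑ y ∈ Q p s, ∑ x, C x * conj (C (x + y)) := by
    rw [Finset.mul_sum]
    simp_rw [Finset.sum_mul]
    rw [Finset.sum_comm]
    exact sum_congr rfl fun y _ => hpars y
  have h2 : ∑ a, (∑ y ∈ Q p s, e (a * y)) * N a =
      ((Q p s).card : ℂ) * (∑ a, N a - ∑ a ∈ univ.filter (fun a : ZMod (p ^ s) => IsUnit a), N a) := by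
    simp_rw [sum_Q p s hs e he]
    rw [← Finset.sum_filter_add_sum_filter_not univ (fun a : ZMod (p ^ s) => IsUnit a) N,
      add_sub_cancel_left, Finset.mul_sum,
      ← Finset.sum_filter_add_sum_filter_not univ (fun a : ZMod (p ^ s) => IsUnit a)]
    rw [Finset.sum_congr rfl (g := fun _ => (0 : ℂ))
      (fun a ha => by rw [if_pos (mem_filter.1 ha).2, zero_mul])]
    rw [sum_const_zero, zero_add]
    exact sum_congr rfl fun a ha => by rw [if_neg (mem_filter.1 ha).2]
  have h3 : ∀ y, ∑ x, C (x + y) * conj (C (x + y)) = ∑ x, C x * conj (C x) := fun y =>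
    Equiv.sum_comp (Equiv.addRight y) (fun x => C x * conj (C x))
  have h4 : ∑ y ∈ Q p s, ∑ x, C (x + y) * conj (C x) =
      ∑ y ∈ Q p s, ∑ x, C x * conj (C (x + y)) := by
    refine Finset.sum_bij (fun y _ => -y) ?_ ?_ ?_ ?_
    · intro y hy
      rw [mem_Q] at hy ⊢
      rw [mul_neg, hy, neg_zero]
    · intro y _ y' _ h
      exact neg_injective h
    · intro y hy
      refine ⟨-y, ?_, neg_neg y⟩
      rw [mem_Q] at hy ⊢
      rw [mul_neg, hy, neg_zero]
    · intro y _
      have := Equiv.sum_comp (Equiv.addRight y) (fun x => C x * conj (C (x + -y)))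
      rw [← this]
      refine sum_congr rfl fun x _ => ?_
      simp
  have h5 : ∑ x, ∑ y ∈ Q p s, (C (x + y) - C x) * conj (C (x + y) - C x) =
      2 * ((Q p s).card : ℂ) * ∑ x, C x * conj (C x) -
        2 * ∑ y ∈ Q p s, ∑ x, C x * conj (C (x + y)) := by
    rw [Finset.sum_comm]
    have h6 : ∀ y ∈ Q p s, ∑ x, (C (x + y) - C x) * conj (C (x + y) - C x) =
        (∑ x, C x * conj (C x) + ∑ x, C x * conj (C x)) -
          (∑ x, C (x + y) * conj (C x) + ∑ x, C x * conj (C (x + y))) := by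
      intro y _
      have hA : ∑ x, (C (x + y) - C x) * conj (C (x + y) - C x) =
          (∑ x, C (x + y) * conj (C (x + y)) + ∑ x, C x * conj (C x)) -
            (∑ x, C (x + y) * conj (C x) + ∑ x, C x * conj (C (x + y))) := by
        rw [← Finset.sum_add_distrib, ← Finset.sum_add_distrib, ← Finset.sum_sub_distrib]
        refine sum_congr rfl fun x _ => ?_
        rw [map_sub]
        ring
      rw [hA, h3]
    rw [Finset.sum_congr rfl h6, Finset.sum_sub_distrib, Finset.sum_add_distrib,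
      Finset.sum_add_distrib, h4, sum_const]
    simp only [nsmul_eq_mul]
    ring
  rw [h5]
  have h7 := h1.symm.trans h2
  rw [h0] at h7
  push_cast at h7 ⊢
  linear_combination (2 : ℂ) * h7

lemma T_aut {L : Type} [Field L] [NumberField L] (σ : L ≃ₐ[ℚ] L) (u : L) : T (σ u) = T u := by
  unfold T
  let f : (L →+* ℂ) ≃ (L →+* ℂ) :=
    { toFun := fun φ => φ.comp (σ : L →+* L)
      invFun := fun φ => φ.comp (σ.symm : L →+* L)
      left_inv := fun φ => by ext x; simp
      right_inv := fun φ => by ext x; simp }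
  exact Equiv.sum_comp f (fun φ : L →+* ℂ => ‖φ u‖ ^ 2)

end TRCaux

open TRCaux in
theorem trc (h1 : GALStmt) : TRCStmt := by
  classical
  intro p s w _ L _ _ z hctx c hc
  have hp : p.Prime := Fact.out
  have : NeZero (p ^ s) := ⟨pow_ne_zero _ hp.ne_zero⟩
  have hs := hctx.hs
  have hroot : ∀ φ : L →+* ℂ, IsPrimitiveRoot (φ z) (p ^ s) := fun φ =>
    hctx.hz.map_of_injective φ.injective
  let e : (L →+* ℂ) → AddChar (ZMod (p ^ s)) ℂ := fun φ =>
    AddChar.zmodChar (p ^ s) (hroot φ).pow_eq_one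
  have he : ∀ φ, (e φ).IsPrimitive := fun φ =>
    AddChar.zmodChar_primitive_of_primitive_root (p ^ s) (hroot φ)
  have heZ : ∀ (φ : L →+* ℂ) (x : ZMod (p ^ s)), φ (Z z x) = e φ x := by
    intro φ x
    rw [Z, map_pow]
    rfl
  have hunit : ∀ a : ZMod (p ^ s), IsUnit a →
      T (∑ x, c x * Z z x) = ∑ φ : L →+* ℂ, ‖∑ x, φ (c x) * e φ (a * x)‖ ^ 2 := by
    rintro _ ⟨t, rfl⟩
    obtain ⟨σ, hσ, hσt⟩ := h1 p s w L z hctx t
    rw [← T_aut σ, T]
    refine sum_congr rfl fun φ _ => ?_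
    congr 2
    rw [map_sum, map_sum]
    refine sum_congr rfl fun x _ => ?_
    rw [map_mul σ (c x) (Z z x), map_mul φ, hσt, hc x σ hσ, heZ]
  have hcardQ : (Q p s).card = p := by
    obtain ⟨φ⟩ : Nonempty (L →+* ℂ) := inferInstance
    exact card_Q p s hs (e φ) (he φ)
  have hcardU := card_U p s hs
  have hmain : 2 * ((Q p s).card : ℝ) *
      (((univ.filter (fun a : ZMod (p ^ s) => IsUnit a)).card : ℝ) * T (∑ x, c x * Z z x)) =
      ((p ^ s : ℕ) : ℝ) * ∑ x, ∑ y ∈ Q p s, T (c (x + y) - c x) := by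
    have hL : ((univ.filter (fun a : ZMod (p ^ s) => IsUnit a)).card : ℝ) * T (∑ x, c x * Z z x) =
        ∑ φ : L →+* ℂ, ∑ a ∈ univ.filter (fun a : ZMod (p ^ s) => IsUnit a),
          ‖∑ x, φ (c x) * e φ (a * x)‖ ^ 2 := by
      rw [Finset.sum_comm, ← nsmul_eq_mul, ← Finset.sum_const]
      exact sum_congr rfl fun a ha => hunit a (mem_filter.1 ha).2
    have hR : ∑ x, ∑ y ∈ Q p s, T (c (x + y) - c x) =
        ∑ φ : L →+* ℂ, ∑ x, ∑ y ∈ Q p s, ‖φ (c (x + y)) - φ (c x)‖ ^ 2 := by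
      rw [Finset.sum_comm (s := univ (α := L →+* ℂ))]
      refine sum_congr rfl fun x _ => ?_
      rw [Finset.sum_comm (s := univ (α := L →+* ℂ))]
      refine sum_congr rfl fun y _ => ?_
      unfold T
      refine sum_congr rfl fun φ _ => ?_
      rw [map_sub]
    rw [hL, hR, Finset.mul_sum, Finset.mul_sum]
    exact sum_congr rfl fun φ _ => main_phi p s hs (e φ) (he φ) (fun x => φ (c x))
  rw [hcardQ, hcardU] at hmain
  have hq : ((p ^ s : ℕ) : ℝ) = (p : ℝ) * ((p ^ (s - 1) : ℕ) : ℝ) := by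
    rw [← Nat.cast_mul, ← pow_succ', Nat.sub_add_cancel hs]
  have hp1 : ((p ^ (s - 1) * (p - 1) : ℕ) : ℝ) = ((p ^ (s - 1) : ℕ) : ℝ) * ((p : ℝ) - 1) := by
    rw [Nat.cast_mul, Nat.cast_sub hp.one_le, Nat.cast_one]
  rw [hp1, hq] at hmain
  have hne : (p : ℝ) * ((p ^ (s - 1) : ℕ) : ℝ) ≠ 0 := by
    rw [← hq]
    exact_mod_cast (NeZero.ne (p ^ s))
  apply mul_left_cancel₀ hne
  have hQ : Q p s = univ.filter (fun y => (p : ZMod (p ^ s)) * y = 0) := by
    ext y
    rw [mem_Q, mem_filter]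
    exact ⟨fun h => ⟨mem_univ _, h⟩, fun h => h.2⟩
  rw [← hQ, ← hmain]
  ring

end LAN
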